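import Pool.Agent.H70.RW.T
import Pool.Agent.H70.RC.Targets
import Pool.Agent.H78.XQ.Targets

/-! Row CLE of the board nbw_modules: a formula which is always right computes the function by its
restrictions. -/

set_option autoImplicit false

namespace Pool.Agent.H60.RW

open Finset Filter Pool.Agent.H6.NB Pool.Agent.H70.OQ Pool.Agent.H78.XQ
open Pool.Agent.H70.RC (Term DNF pv fv psat run Bad Arry Right RightP sec arrp)
open Pool.Agent.H70.RK (Adp Qst EasyK EasyKP sbs MajAt Ac flat TR bl tm dn vt can cv Gt gmap gval gbs gsz Ce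
  dwn sti Hn adr red gd WC Lt)
open Pool.Agent.H70.RW

theorem mB_ne_zero {q l R r : ℕ} {b : Bool}
    {c : ((Fin (2 * l) → Bool) → VV q → Bool) × ((Fin r → Bool) → Bool)}
    (h : mB q l R r b c ≠ 0) : OkB q l R r b c := by
  by_contra h'
  exact h (by unfold mB; rw [if_neg h'])

theorem sbs_of_lt {n : ℕ} (bv : ((Fin n → Bool) → Bool) → List Bool → Bool) (h : Lt bv) :
    ∃ ρ : List Bool → Bool ⊕ (Fin n → Bool), ∀ X, sbs ρ X = bv X := by
  have h1 : ∀ w, ∃ r : Bool ⊕ (Fin n → Bool), ∀ X : (Fin n → Bool) → Bool,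
      (match r with
        | .inl b => b
        | .inr v => X v) = bv X w := by
    intro w
    rcases h w with ⟨b, hb⟩ | ⟨v, hv⟩
    · exact ⟨.inl b, fun X => (hb X).symm⟩
    · exact ⟨.inr v, fun X => (hv X).symm⟩
  choose ρ hρ using h1
  exact ⟨ρ, fun X => funext fun w => hρ w X⟩

theorem sum_ite_not {Ω : Type} [Fintype Ω] (w : Ω → ℝ) (G : Ω → Prop) (inst : ∀ x, Decidable (G x))
    (B : Ω → Prop) [DecidablePred B] (h : ∀ x, G x ↔ ¬ B x) :
    ∑ x, w x * (@ite ℝ (G x) (inst x) 1 0) =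
      ∑ x, w x - ∑ x, w x * (if B x then (1 : ℝ) else 0) := by
  rw [← Finset.sum_sub_distrib]
  refine Finset.sum_congr rfl fun x _ => ?_
  by_cases hB : B x
  · rw [if_neg (fun hG => (h x).1 hG hB), if_pos hB]
    ring
  · rw [if_pos ((h x).2 hB), if_neg hB]
    ring

theorem sum_ite_true {Ω : Type} [Fintype Ω] (w : Ω → ℝ) (G : Ω → Prop)
    (inst : ∀ x, Decidable (G x)) (h : ∀ x, G x) :
    ∑ x, w x * (@ite ℝ (G x) (inst x) 1 0) = ∑ x, w x := by
  refine Finset.sum_congr rfl fun x _ => ?_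
  rw [if_pos (h x), mul_one]

theorem pf_CLE (hCLH : Pool.Agent.H70.RW.T_CLH) (hNEW : Pool.Agent.H70.RC.T_NEW)
    (hNUM : Pool.Agent.H70.RW.T_NUM) (hLIT : Pool.Agent.H70.RW.T_LIT)
    (hMAS : Pool.Agent.H78.XQ.T_MAS) : Pool.Agent.H70.RW.T_CLE := by
  classical
  intro d c κ V f W hW
  filter_upwards [hNUM 1 c le_rfl, eventually_ge_atTop d, eventually_ge_atTop 1] with n hn hdn hn1
  intro N hN D hright
  obtain ⟨hN2, -, hnN, -, h8, -, hsmall⟩ := hn N hN
  obtain ⟨m, hm⟩ : ∃ m, m = n ^ c + c := ⟨_, rfl⟩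
  have hmN : m ≤ N := by
    rw [hm, hN]
    have : n ^ c ≤ n ^ (c + 1) := Nat.pow_le_pow_right hn1 (by omega)
    omega
  have hm2 : m ≤ 2 ^ (n + 20) ^ 2 := by
    refine hmN.trans (le_trans ?_ h8)
    rw [one_add_one_eq_two, pow_two]
    nlinarith
  have hWm : Ac d m (W n) := hm ▸ hW n
  obtain ⟨Sm, hSm⟩ : ∃ Sm : ℝ, Sm = ∑ p : Bi n N, (1 / 8 : ℝ) ^ (p.1.1.length + 20) +
      ∑ s : Li n N, (1 / 4 : ℝ) ^ s.1.length := ⟨_, rfl⟩
  rw [← hSm] at hsmall
  let w : Ar n N × Bl n N → ℝ := fun x => 1 / (Fintype.card (Ar n N) : ℝ) *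
    (∏ p, m0 (qs (hl p)) (hl p).length (wln (hl p)) (x.2 p))
  have hw0 : ∀ x, 0 ≤ w x := by
    intro x
    refine mul_nonneg (by positivity) (Finset.prod_nonneg fun p _ => ?_)
    exact (hMAS (qs (hl p)) (hl p).length 0 (wln (hl p))).1 _
  have hw1 : ∑ x, w x = 1 := by
    rw [Fintype.sum_prod_type]
    have h1 : ∀ g : Ar n N, ∑ P : Bl n N, w (g, P) = 1 / (Fintype.card (Ar n N) : ℝ) := by
      intro g
      have h2 : ∑ P : Bl n N, (∏ p, m0 (qs (hl p)) (hl p).length (wln (hl p)) (P p)) = 1 := by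
        have h3 := Finset.prod_univ_sum (fun p : Bi n N => (univ : Finset (CB (hl p))))
          (fun p c => m0 (qs (hl p)) (hl p).length (wln (hl p)) c)
        rw [Fintype.piFinset_univ] at h3
        rw [← h3]
        apply Finset.prod_eq_one
        intro p _
        exact (hMAS (qs (hl p)) (hl p).length 0 (wln (hl p))).2.1
      calc ∑ P : Bl n N, w (g, P) = 1 / (Fintype.card (Ar n N) : ℝ) *
            ∑ P : Bl n N, (∏ p, m0 (qs (hl p)) (hl p).length (wln (hl p)) (P p)) := by
              rw [Finset.mul_sum]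
        _ = 1 / (Fintype.card (Ar n N) : ℝ) := by rw [h2, mul_one]
    rw [Finset.sum_congr rfl fun g _ => h1 g, Finset.sum_const, Finset.card_univ, nsmul_eq_mul]
    have : (Fintype.card (Ar n N) : ℝ) ≠ 0 := by
      have : 0 < Fintype.card (Ar n N) := Fintype.card_pos
      positivity
    field_simp
  -- few bad arrays and blocks
  have hbad : ∀ X b, f n X = some b →
      ∑ x : Ar n N × Bl n N, w x * (if W n (lbv V D X x.1 x.2) = !b then 1 else 0) ≤ Sm := by
    intro X b hb
    have h := hCLH d m κ V n N D X (W n) (!b) hnN hmN hWm hdn hm2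
    have hz : ∑ a : Ad n N, ∑ g : Ar n N, ∑ P : Bl n N,
      1 / ((Fintype.card (Ad n N) : ℝ) * Fintype.card (Ar n N)) *
        (∏ p, mB (qs (hl p)) (hl p).length (rns (hl p)) (wln (hl p)) (a p.1 p.2.1 p.2.2) (P p)) *
        (if W n (orc V (ina n N D X a g P)) = !b then (1 : ℝ) else 0) = 0 := by
      refine Finset.sum_eq_zero fun a _ => Finset.sum_eq_zero fun g _ =>
        Finset.sum_eq_zero fun P _ => ?_
      by_cases hP : okA a P
      · have h1 := hright X a g P hP b hb
        rw [h1]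
        cases b <;> simp
      · have h2 : ∃ p : Bi n N, ¬ okb (hl p) (a p.1 p.2.1 p.2.2) (P p) := by
          by_contra h3
          push Not at h3
          exact hP h3
        obtain ⟨p, hp⟩ := h2
        have h4 : (∏ p : Bi n N, mB (qs (hl p)) (hl p).length (rns (hl p)) (wln (hl p))
            (a p.1 p.2.1 p.2.2) (P p)) = 0 := by
          refine Finset.prod_eq_zero (Finset.mem_univ p) ?_
          by_contra h5
          exact hp (mB_ne_zero h5)
        rw [h4, mul_zero, zero_mul]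
    rw [hz, ← hSm] at h
    rw [Fintype.sum_prod_type]
    linarith
  obtain ⟨G, hG⟩ : ∃ G : ((Fin n → Bool) → Bool) → Ar n N × Bl n N → Prop, ∀ X x, G X x ↔
      ∀ b, f n X = some b → W n (lbv V D X x.1 x.2) = b :=
    ⟨fun X x => ∀ b, f n X = some b → W n (lbv V D X x.1 x.2) = b, fun _ _ => Iff.rfl⟩
  obtain ⟨l, -, hl2⟩ := hNEW (Ar n N × Bl n N) ((Fin n → Bool) → Bool) w G (2 ^ n + 1) hw0 hw1.le
    (by
      intro X
      rcases hX : f n X with _ | b
      · refine le_trans ?_ (sum_ite_true w (G X) _ (fun x => (hG X x).2 (by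
          intro b hb
          rw [hX] at hb
          cases hb))).ge
        rw [hw1]
        have : (0 : ℝ) ≤ (1 / 2) ^ 300 := by positivity
        linarith
      · refine le_trans ?_ (sum_ite_not w (G X) _ (fun x => W n (lbv V D X x.1 x.2) = !b) (by
          intro x
          rw [hG]
          constructor
          · intro h
            rw [h b hX]
            cases b <;> simp
          · intro h b' hb'
            rw [hX] at hb'
            cases hb'
            revert h
            cases W n (lbv V D X x.1 x.2) <;> cases b <;> simp)).ge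
        rw [hw1]
        have := hbad X b hX
        linarith)
    (Nat.le_add_left 1 _) (by
      rw [Fintype.card_fun, Fintype.card_bool, Fintype.card_fun, Fintype.card_bool,
        Fintype.card_fin]
      exact Nat.pow_le_pow_right (by norm_num) (Nat.le_succ _))
  have hρ : ∀ i, ∃ ρ : List Bool → Bool ⊕ (Fin n → Bool), ∀ X, sbs ρ X =
      lbv V D X (l i).1 (l i).2 := fun i =>
    sbs_of_lt _ (hLIT κ V n N D (l i).1 (l i).2).2.1
  choose ρ hρ' using hρ
  refine ⟨ρ, fun X b hb => le_trans (Nat.mul_le_mul_left 100 (Finset.card_le_card ?_)) (hl2 X)⟩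
  intro i hi
  rw [Finset.mem_filter] at hi ⊢
  refine ⟨hi.1, fun h => hi.2 ?_⟩
  rw [hρ']
  exact (hG X (l i)).1 h b hb

end Pool.Agent.H60.RW
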