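import Pool.Agent.H70.RW.T
import Pool.Agent.H66.RK.EVO

/-! Row EVO of the board nbw_modules: for good seeds the oracle is in P^(Sigma_K). -/

set_option autoImplicit false

namespace Pool.Agent.H60.RW

open Finset Filter Pool.Agent.H6.NB Pool.Agent.H70.OQ Pool.Agent.H78.XQ
open Pool.Agent.H70.RC (Term DNF pv fv psat run Bad Arry Right RightP sec arrp)
open Pool.Agent.H70.RK (Adp Qst EasyK EasyKP sbs MajAt Ac flat TR bl tm dn vt can cv Gt gmap gval gbs gsz Ce
  dwn sti Hn adr red gd WC Lt T_RDT T_RDW T_VLK T_CVF T_GTL T_ADM)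
open Pool.Agent.H70.RW
open Pool.Agent.H66.RK (evo_bounds adp_var gsz_mono on_mono gmap_gmap gsz_gmap gbs_gmap gval_gmap
  gval_congr)

theorem pf_EVO (hRDT : T_RDT) (hRDW : T_RDW) (hVLK : T_VLK) (hCVF : T_CVF) (hORL : T_ORL)
    (hLIT : T_LIT) (hLVL : Pool.Agent.H70.RC.T_LVL) (_hGTL : T_GTL) (hADM : T_ADM)
    (hSTR : T_STR) : T_EVO := by
  classical
  intro κ V c k hk
  obtain ⟨C₀, hC₀⟩ := hLVL c
  refine ⟨(c + 4) * ((2 * k + 3) * (C₀ + 1)), fun n N hn hkn hN D G t hG σ => ?_⟩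
  obtain ⟨lv, hlv1, hlv2⟩ := hC₀ n N hn hN
  obtain ⟨hb1, hb2⟩ := evo_bounds c k C₀ n N hn hN
  set C := (c + 4) * ((2 * k + 3) * (C₀ + 1)) with hC
  have hN1 : 1 ≤ N := by omega
  have hnN : n ≤ N := by
    have : n ≤ n ^ (c + 1) := Nat.le_self_pow (by omega) n
    omega
  have ht : ∀ s : Li n N, t s + 1 ≤ N := by
    intro s
    have h1 := hG.sq s
    have h2 := s.2.2
    nlinarith
  have ht8 : 1 ≤ (8 * N) ^ (k + 1) := Nat.one_le_pow _ _ (by omega)
  obtain ⟨hinj0, hLt, -⟩ := hLIT κ V n N D σ.2.2.1 σ.2.2.2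
  have hinj : Function.Injective (pk (K := k) (n := n) (N := N) σ.1) := hinj0 k σ.1 hkn
  set U : List Bool → Prop := fun w => ∃ x : Ce (Li n N) (fun s => Ck s.1) k, pk σ.1 x = w with hU
  set bv : ((Fin n → Bool) → Bool) → List Bool → Bool :=
    fun X => lbv V D X σ.2.2.1 σ.2.2.2 with hbv
  set T : Li n N → ((Fin n → Bool) → Bool) → TR (List Bool) := fun s X =>
    red (bv X) N k N (pk σ.1) σ.2.1 (gs V G D X σ.1 σ.2.2.1 σ.2.2.2 s) with hTdef
  -- the trees are computable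
  have hWC : ∀ s, WC ((8 * N) ^ (k + 1)) k ((8 * N) ^ (k + 1)) (T s) := by
    intro s
    have h := hRDW (Fin n → Bool) (Li n N) (List Bool) (fun s => Ck s.1) N 0 k 0 ((8 * N) ^ (k + 1))
      N N N N bv (pk σ.1) σ.2.1
      (gmap (fun (T : DT) (X : (Fin n → Bool) → Bool) => cv U (bv X) [] T) k (G s))
      (by omega) le_rfl le_rfl (by simp) (by
        rw [zero_add, pow_one]
        omega) (by rw [zero_add]) hLt ?_ ?_
    · rw [zero_add] at h
      have e : (fun y => red (bv y) N k N (pk σ.1) σ.2.1 (gmap (fun τ => τ y) k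
          (gmap (fun (T : DT) (X : (Fin n → Bool) → Bool) => cv U (bv X) [] T) k (G s)))) =
          T s := by
        funext y
        rw [gmap_gmap]
        rfl
      rw [e] at h
      exact h
    · rw [gsz_gmap]
      exact gsz_mono _ _ _ _ _ (Nat.pow_le_pow_right (by norm_num) (ht s)) (hG.len s)
    · intro τ hτ
      rw [gbs_gmap] at hτ
      obtain ⟨T', hT', rfl⟩ := List.mem_map.1 hτ
      have h2 := (hCVF U (t s) T' (hG.ql s T' hT')).2 (Fin n → Bool) ((8 * N) ^ (k + 1)) bv hLt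
      intro π
      refine hADM _ _ _ _ _ _ _ _ _ le_rfl le_rfl ?_ ht8 (h2 π)
      have := hG.dp s T' hT'
      have := ht s
      omega
  obtain ⟨Gv, hGv1, hGv2⟩ := hVLK (Fin n → Bool) (List Bool) (Li n N) ((8 * N) ^ (k + 1)) k
    ((8 * N) ^ (k + 1)) (N ^ k * N) (fun s => pk σ.1 ⟨s, adr k σ.2.1 s⟩) T lv (by
      intro s s' h
      have := hinj h
      simp only [Sigma.mk.inj_iff] at this
      exact this.1) hWC
  have hn1 : 1 ≤ n ^ C + C := by
    have : 1 ≤ n ^ C := Nat.one_le_pow _ _ (by omega)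
    omega
  refine ⟨fun w => if N < w.length then fun _ => false else
    if h : ∃ s : Li n N, pk σ.1 ⟨s, adr k σ.2.1 s⟩ = w then Gv h.choose else
      fun X => bv X w, ?_, ?_⟩
  · intro w
    beta_reduce
    split_ifs with hw h
    · exact Adp.pure _ _
    · refine hADM _ _ _ _ _ _ _ _ _ (hb1.trans (Nat.le_add_right _ _)) le_rfl ?_ hn1
        (hGv1 h.choose)
      refine le_trans ?_ (hb2.trans (Nat.le_add_right _ _))
      refine Nat.pow_le_pow_right ?_ (Nat.succ_le_succ (hlv2 _))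
      exact Nat.mul_pos (by omega) (by omega)
    · rcases hLt w with ⟨b, hb⟩ | ⟨v, hv⟩
      · have : (fun X => bv X w) = fun _ => b := funext hb
        rw [this]
        exact Adp.pure _ _
      · have : (fun X => bv X w) = fun X => X v := funext hv
        rw [this]
        exact adp_var hADM _ _ _ hn1 hn1 v
  · intro X hX w hw
    obtain ⟨ho1, ho3, ho4⟩ := hORL κ V n N D X (adk σ.1 σ.2.1) σ.2.2.1 σ.2.2.2 hnN
    set O := orc V (ins n N D X σ) with hO
    have hkey : ∀ s, O (pk σ.1 ⟨s, adr k σ.2.1 s⟩) = Gv s X := by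
      apply hGv2 X O
      intro s
      have hgood := hX s
      have hgate : ∀ T' ∈ gbs k (gs V G D X σ.1 σ.2.2.1 σ.2.2.2 s), T'.depth ≤ N ∧ T'.Nd ∧
          T'.Tot ∧ T'.On fun w => (∃ x : Ce (Li n N) (fun s => Ck s.1) k, pk σ.1 x = w) ∧
            w.length ≤ t s := by
        intro T' hT'
        unfold gs at hT'
        rw [gbs_gmap] at hT'
        obtain ⟨T₀, hT₀, rfl⟩ := List.mem_map.1 hT'
        obtain ⟨c1, c2, c3, c4, -, -⟩ :=
          (hCVF U (t s) T₀ (hG.ql s T₀ hT₀)).1 (bv X)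
        have h3 := hG.dp s T₀ hT₀
        have h4 := ht s
        exact ⟨c1.trans (by omega), c2, c3, c4⟩
      obtain ⟨r1, -, r3, r4⟩ := hRDT (Li n N) (List Bool) (fun s => Ck s.1) k N N (bv X) (pk σ.1)
        σ.2.1 (gs V G D X σ.1 σ.2.2.1 σ.2.2.2 s) (fun w => w.length ≤ t s) hinj hgate hgood
      refine ⟨r1, ?_, ?_⟩
      · refine on_mono ?_ _ r3
        rintro w ⟨⟨s', rfl⟩, hlen⟩
        refine ⟨s', rfl, hlv1 s s' ?_⟩
        have h5 := hSTR.2.2.1 s'.1 (adk σ.1 σ.2.1 s')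
        have h6 : (arrp s'.1 (flat (adk σ.1 σ.2.1 s'))).length ≤ t s := hlen
        have h7 := hG.sq s
        have h8 : s'.1.length + 1 ≤ t s := by omega
        nlinarith
      · have h9 := r4 O ?_
        · change O (pk σ.1 ⟨s, adr k σ.2.1 s⟩) = true ↔
            (red (bv X) N k N (pk σ.1) σ.2.1 (gs V G D X σ.1 σ.2.2.1 σ.2.2.2 s)).eval O = some true
          rw [h9]
          have h10 : gval (vt O) k (gs V G D X σ.1 σ.2.2.1 σ.2.2.2 s) =
              gval (fun T' : DT => T'.eval O) k (G s) := by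
            unfold gs
            rw [gval_gmap]
            refine gval_congr _ _ _ _ _ fun T₀ hT₀ => ?_
            obtain ⟨-, -, -, -, c5, -⟩ := (hCVF U (t s) T₀ (hG.ql s T₀ hT₀)).1 (bv X)
            have h11 := c5 O fun w hwl hwU => ho1 w (Or.inl (by have := ht s; omega))
              fun s' hs' => hwU ⟨⟨s', adr k σ.2.1 s'⟩, hs'.symm⟩
            unfold vt
            change decide ((cv U (bv X) [] T₀).eval O = some true) = T₀.eval O
            rw [h11]
            cases T₀.eval O <;> simp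
          rw [h10]
          have h12 : O (pk σ.1 ⟨s, adr k σ.2.1 s⟩) = true ↔ ans V O s.1 := ho3 s
          rw [h12, hG.ans s O ho4]
          simp
        · intro x hx
          exact ho1 (pk σ.1 x) (Or.inr ⟨x.1, glu x.2 (σ.1 x.1), rfl⟩) fun s' hs' => hx s' hs'
    beta_reduce
    rw [if_neg (not_lt.2 hw)]
    by_cases h : ∃ s : Li n N, pk σ.1 ⟨s, adr k σ.2.1 s⟩ = w
    · rw [dif_pos h, ← hkey h.choose, h.choose_spec]
    · rw [dif_neg h]
      exact ho1 w (Or.inl hw) fun s hs => h ⟨s, hs.symm⟩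

end Pool.Agent.H60.RW
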